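import Pool.Agent.Helper48.AED.Spec

/-!
# AED, part NEG: at most one eigenvalue below `-1`
-/

set_option autoImplicit false

namespace Pool.Agent.Helper53.AED.NEG

open Finset Matrix Pool.AED48

theorem main : S_NEG := by
  intro n d A μ U hG hS a b ha hb
  by_contra hab
  obtain ⟨L, hL⟩ := hG.lin
  have haa : ∑ i, U a i * U a i = 1 := by rw [hS.orth a a, if_pos rfl]
  have hbb : ∑ i, U b i * U b i = 1 := by rw [hS.orth b b, if_pos rfl]
  have hab' : ∑ i, U a i * U b i = 0 := by rw [hS.orth a b, if_neg hab]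
  -- coefficients
  obtain ⟨x, y, hxy, hsum⟩ : ∃ x y : ℝ, 0 < x ^ 2 + y ^ 2 ∧
      x * (∑ i, U a i) + y * (∑ i, U b i) = 0 := by
    by_cases h : (∑ i, U a i) = 0
    · exact ⟨1, 0, by norm_num, by rw [h]; ring⟩
    · refine ⟨∑ i, U b i, -(∑ i, U a i), ?_, by ring⟩
      have : 0 < (∑ i, U a i) ^ 2 := by positivity
      nlinarith [sq_nonneg (∑ i, U b i)]
  set v : Fin n → ℝ := fun i => x * U a i + y * U b i with hv
  have hvsum : ∑ i, v i = 0 := by
    have : ∑ i, v i = x * (∑ i, U a i) + y * (∑ i, U b i) := by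
      rw [mul_sum, mul_sum, ← sum_add_distrib]
    rw [this, hsum]
  have hquad : ∀ p q : ℝ, ∑ i, (x * U a i + y * U b i) * (p * U a i + q * U b i) = x * p + y * q := by
    intro p q
    have h1 : ∑ i, (x * U a i + y * U b i) * (p * U a i + q * U b i)
        = (x * p) * (∑ i, U a i * U a i) + (x * q + y * p) * (∑ i, U a i * U b i)
          + (y * q) * (∑ i, U b i * U b i) := by
      rw [mul_sum, mul_sum, mul_sum, ← sum_add_distrib, ← sum_add_distrib]
      refine sum_congr rfl fun i _ => ?_
      ring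
    rw [h1, haa, hbb, hab']
    ring
  have hAv : ∀ i, ∑ j, v i * A i j * v j
      = v i * (x * μ a * U a i + y * μ b * U b i) := by
    intro i
    have h1 : ∑ j, v i * A i j * v j
        = v i * (x * (∑ j, A i j * U a j) + y * (∑ j, A i j * U b j)) := by
      rw [mul_sum, mul_sum, ← sum_add_distrib, mul_sum]
      refine sum_congr rfl fun j _ => ?_
      simp only [hv]
      ring
    rw [h1, hS.eig a i, hS.eig b i]
    ring
  have hqf : qf A v = (1 + μ a) * x ^ 2 + (1 + μ b) * y ^ 2 := by
    unfold qf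
    have h1 : ∑ i, v i ^ 2 = x * x + y * y := by
      rw [← hquad x y]
      refine sum_congr rfl fun i _ => ?_
      simp only [hv]
      ring
    have h2 : ∑ i, ∑ j, v i * A i j * v j = x * (x * μ a) + y * (y * μ b) := by
      rw [← hquad (x * μ a) (y * μ b)]
      refine sum_congr rfl fun i _ => ?_
      rw [hAv i]
    rw [h1, h2]
    ring
  have h1 := hL v hvsum
  have h2 : 0 ≤ 2 * ∑ r, (L v r) ^ 2 := by positivity
  rw [← h1, hqf] at h2
  have ha' : 0 < -1 - μ a := by linarith
  have hb' : 0 < -1 - μ b := by linarith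
  have h3 := mul_nonneg ha'.le (sq_nonneg x)
  have h4 := mul_nonneg hb'.le (sq_nonneg y)
  by_cases hx : x = 0
  · have hy : 0 < y ^ 2 := by
      rw [hx] at hxy
      linarith
    have h5 := mul_pos hb' hy
    nlinarith
  · have hx2 : 0 < x ^ 2 := by positivity
    have h5 := mul_pos ha' hx2
    nlinarith

end Pool.Agent.Helper53.AED.NEG
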